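import Pool.Agent.Helper94.KC.GoalsC

/-!
# Project KC (MP_bf413e_co), packet EV: mod 2 calculus
-/

set_option autoImplicit false

namespace Pool.Agent.Helper70.KC

open scoped Classical
open Finset Pool.Agent.Helper94.KC

theorem card_symm {α : Type} [DecidableEq α] (A B : Finset α) :
    (symmDiff A B).card + 2 * (A ∩ B).card = A.card + B.card := by
  have h1 : (symmDiff A B).card = (A \ B).card + (B \ A).card := by
    rw [symmDiff_def, sup_eq_union, card_union_of_disjoint disjoint_sdiff_sdiff]
  have h2 := card_sdiff_add_card_inter A B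
  have h3 := card_sdiff_add_card_inter B A
  rw [inter_comm B A] at h3
  omega

theorem filter_symm {α : Type} [DecidableEq α] (A B : Finset α) (p : α → Prop)
    [DecidablePred p] : (symmDiff A B).filter p = symmDiff (A.filter p) (B.filter p) := by
  ext x
  simp only [mem_filter, mem_symmDiff]
  tauto

theorem odd_symm {α : Type} [DecidableEq α] (A B : Finset α) (p : α → Prop) [DecidablePred p] :
    Odd ((symmDiff A B).filter p).card ↔
      ¬ (Odd (A.filter p).card ↔ Odd (B.filter p).card) := by
  rw [filter_symm]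
  have h := card_symm (A.filter p) (B.filter p)
  rw [Nat.odd_iff, Nat.odd_iff, Nat.odd_iff]
  omega

theorem bd_symm {V : Type} [Fintype V] (T D D' : Finset (Finset V)) :
    bd T (symmDiff D D') = symmDiff (bd T D) (bd T D') := by
  ext e
  simp only [bd, mem_filter, mem_symmDiff, odd_symm]
  tauto

theorem even_symm {V : Type} {z z' : Finset (Finset V)} (h : Even2 z) (h' : Even2 z') :
    Even2 (symmDiff z z') := by
  intro v
  rw [← Nat.not_odd_iff_even, odd_symm]
  have h1 := h v
  have h2 := h' v
  rw [← Nat.not_odd_iff_even] at h1 h2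
  tauto

/-- the edges at a vertex of a triangle -/
theorem card_edges_at {V : Type} [Fintype V] {T : Finset (Finset V)} {t : Finset V} (ht : t ∈ T)
    (h3 : t.card = 3) (v : V) :
    (((ed T).filter (fun e => v ∈ e)).filter (fun e => e ⊆ t)).card = if v ∈ t then 2 else 0 := by
  split_ifs with hv
  · have himg : ((ed T).filter (fun e => v ∈ e)).filter (fun e => e ⊆ t) =
        (t.erase v).image (fun a => ({v, a} : Finset V)) := by
      ext e
      simp only [mem_filter, mem_image, mem_erase, ed, mem_univ, true_and]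
      constructor
      · rintro ⟨⟨⟨hc, _⟩, hve⟩, het⟩
        obtain ⟨a, b, hab, rfl⟩ := card_eq_two.1 hc
        simp only [mem_insert, mem_singleton] at hve
        rcases hve with rfl | rfl
        · exact ⟨b, ⟨fun h => hab h.symm, het (by simp)⟩, rfl⟩
        · exact ⟨a, ⟨hab, het (by simp)⟩, by rw [pair_comm]⟩
      · rintro ⟨a, ⟨hav, hat⟩, rfl⟩
        have hsub : ({v, a} : Finset V) ⊆ t := by
          intro x hx
          simp only [mem_insert, mem_singleton] at hx
          rcases hx with rfl | rfl
          · exact hv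
          · exact hat
        exact ⟨⟨⟨card_pair (fun h => hav h.symm), t, ht, hsub⟩, by simp⟩, hsub⟩
    rw [himg, card_image_of_injOn, card_erase_of_mem hv, h3]
    intro a ha b hb hab
    have ha' : a ≠ v := (mem_erase.1 ha).1
    simp only at hab
    have : a ∈ ({v, b} : Finset V) := by rw [← hab]; simp
    simp only [mem_insert, mem_singleton] at this
    rcases this with h | h
    · exact absurd h ha'
    · exact h
  · rw [card_eq_zero, filter_eq_empty_iff]
    intro e he
    rw [mem_filter] at he
    exact fun h => hv (h he.2)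

theorem even_bd {V : Type} [Fintype V] {T D : Finset (Finset V)} (hT : Surf T) (hD : D ⊆ T) :
    Even2 (bd T D) := by
  intro v
  have h1 : (bd T D).filter (fun e => v ∈ e) =
      ((ed T).filter (fun e => v ∈ e)).filter (fun e => Odd (D.filter (fun t => e ⊆ t)).card) := by
    ext e
    simp only [bd, mem_filter]
    tauto
  rw [h1, ← Nat.not_odd_iff_even, ← odd_sum_iff_odd_card_odd, Nat.not_odd_iff_even]
  have h2 : ∑ e ∈ (ed T).filter (fun e => v ∈ e), (D.filter (fun t => e ⊆ t)).card =
      ∑ t ∈ D, (((ed T).filter (fun e => v ∈ e)).filter (fun e => e ⊆ t)).card := by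
    have h := sum_card_bipartiteAbove_eq_sum_card_bipartiteBelow
      (s := (ed T).filter (fun e => v ∈ e)) (t := D) (fun e t => e ⊆ t)
    simp only [bipartiteAbove, bipartiteBelow] at h
    exact h
  rw [h2]
  refine even_sum _ fun t ht => ?_
  rw [card_edges_at (hD ht) (hT.card t (hD ht)) v]
  split_ifs <;> decide

theorem edge_two {V : Type} [Fintype V] {T : Finset (Finset V)} (hT : Surf T) {e : Finset V}
    (he : e ∈ ed T) : (T.filter (fun t => e ⊆ t)).card = 2 := by
  simp only [ed, mem_filter, mem_univ, true_and] at he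
  obtain ⟨hc, t, ht, het⟩ := he
  obtain ⟨a, b, hab, rfl⟩ := card_eq_two.1 hc
  have hadj : (sk T).Adj a b := ⟨hab, t, ht, het (by simp), het (by simp)⟩
  rw [← hT.two a b hadj]
  congr 1
  ext s
  simp only [mem_filter, insert_subset_iff, singleton_subset_iff]

theorem bd_univ {V : Type} [Fintype V] {T : Finset (Finset V)} (hT : Surf T) : bd T T = ∅ := by
  rw [bd, filter_eq_empty_iff]
  intro e he
  rw [edge_two hT he]
  decide

theorem mem_ed_of {V : Type} [Fintype V] {T : Finset (Finset V)} {a b : V} {t : Finset V}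
    (hab : a ≠ b) (ht : t ∈ T) (ha : a ∈ t) (hb : b ∈ t) : ({a, b} : Finset V) ∈ ed T := by
  simp only [ed, mem_filter, mem_univ, true_and]
  refine ⟨card_pair hab, t, ht, ?_⟩
  intro x hx
  simp only [mem_insert, mem_singleton] at hx
  rcases hx with rfl | rfl
  · exact ha
  · exact hb

/-- a set of triangles without boundary contains all triangles at its edges -/
theorem spread {V : Type} [Fintype V] {T D : Finset (Finset V)} (hT : Surf T) (hD : D ⊆ T)
    (h0 : bd T D = ∅) {a b : V} (hab : a ≠ b) {s t : Finset V} (hs : s ∈ D) (ht : t ∈ T)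
    (ha : a ∈ s) (hb : b ∈ s) (ha' : a ∈ t) (hb' : b ∈ t) : t ∈ D := by
  have he := mem_ed_of hab (hD hs) ha hb
  have h1 : ¬ Odd (D.filter (fun t => ({a, b} : Finset V) ⊆ t)).card := by
    intro h
    have : ({a, b} : Finset V) ∈ bd T D := mem_filter.2 ⟨he, h⟩
    rw [h0] at this
    exact absurd this (notMem_empty _)
  have h2 := edge_two hT he
  have hsub : D.filter (fun t => ({a, b} : Finset V) ⊆ t) ⊆
      T.filter (fun t => ({a, b} : Finset V) ⊆ t) := filter_subset_filter _ hD
  have hs' : s ∈ D.filter (fun t => ({a, b} : Finset V) ⊆ t) := by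
    rw [mem_filter]
    refine ⟨hs, ?_⟩
    intro x hx
    simp only [mem_insert, mem_singleton] at hx
    rcases hx with rfl | rfl
    · exact ha
    · exact hb
  have h3 : 0 < (D.filter (fun t => ({a, b} : Finset V) ⊆ t)).card := card_pos.2 ⟨s, hs'⟩
  have h4 := card_le_card hsub
  have h5 : (D.filter (fun t => ({a, b} : Finset V) ⊆ t)).card = 2 := by
    rw [Nat.not_odd_iff_even] at h1
    obtain ⟨r, hr⟩ := h1
    omega
  have h6 := eq_of_subset_of_card_le hsub (by omega)
  have h7 : t ∈ T.filter (fun t => ({a, b} : Finset V) ⊆ t) := by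
    rw [mem_filter]
    refine ⟨ht, ?_⟩
    intro x hx
    simp only [mem_insert, mem_singleton] at hx
    rcases hx with rfl | rfl
    · exact ha'
    · exact hb'
  rw [← h6] at h7
  exact (mem_filter.1 h7).1

theorem exists_other {V : Type} {t : Finset V} (h3 : t.card = 3) (v : V) :
    ∃ a ∈ t, a ≠ v := by
  by_contra h
  push Not at h
  have hsub : t ⊆ {v} := fun x hx => by rw [mem_singleton]; exact h x hx
  have := card_le_card hsub
  rw [card_singleton] at this
  omega

theorem all_or {V : Type} [Fintype V] {T D : Finset (Finset V)} (hT : Surf T) (hD : D ⊆ T)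
    (h0 : bd T D = ∅) : D = ∅ ∨ D = T := by
  by_cases hne : D = ∅
  · exact Or.inl hne
  right
  obtain ⟨t0, ht0⟩ := nonempty_iff_ne_empty.2 hne
  -- around a vertex
  have hA : ∀ v : V, ∀ t ∈ D, v ∈ t → ∀ s ∈ T, v ∈ s → s ∈ D := by
    intro v t ht hvt s hs hvs
    obtain ⟨u, hu, huv⟩ := exists_other (hT.card t (hD ht)) v
    obtain ⟨w, hw, hwv⟩ := exists_other (hT.card s hs) v
    have hr := hT.link v u w ⟨huv.symm, t, hD ht, hvt, hu⟩ ⟨hwv.symm, s, hs, hvs, hw⟩
    rw [SimpleGraph.reachable_iff_reflTransGen] at hr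
    have key : ∀ x, Relation.ReflTransGen (lk T v).Adj u x → x ≠ v ∧
        ∀ r ∈ T, v ∈ r → x ∈ r → r ∈ D := by
      intro x hx
      induction hx with
      | refl =>
        exact ⟨huv, fun r hr hvr hur => spread hT hD h0 huv ht hr hu hvt hur hvr⟩
      | tail _ hxy ih =>
        obtain ⟨_, _, hyv, r0, hr0, hv0, hx0, hy0⟩ := hxy
        refine ⟨hyv, fun r hr hvr hyr => ?_⟩
        exact spread hT hD h0 hyv (ih.2 r0 hr0 hv0 hx0) hr hy0 hv0 hyr hvr
    exact (key w hr).2 s hs hvs hw
  have hcon : ∀ v : V, ∃ t ∈ D, v ∈ t := by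
    intro v
    obtain ⟨v0, hv0, hx⟩ := exists_other (hT.card t0 (hD ht0)) v
    clear hx
    have hr := hT.conn.preconnected v0 v
    rw [SimpleGraph.reachable_iff_reflTransGen] at hr
    induction hr with
    | refl => exact ⟨t0, ht0, hv0⟩
    | tail _ hxy ih =>
      obtain ⟨t, ht, hxt⟩ := ih
      obtain ⟨_, s, hs, hxs, hys⟩ := hxy
      exact ⟨s, hA _ t ht hxt s hs hxs, hys⟩
  refine Subset.antisymm hD fun s hs => ?_
  have h3 := hT.card s hs
  obtain ⟨a, ha⟩ := card_pos.1 (by omega : 0 < s.card)
  obtain ⟨t, ht, hat⟩ := hcon a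
  exact hA a t ht hat s hs ha

theorem toFinset_inj {V : Type} : Function.Injective (fun e : Sym2 V => e.toFinset) := by
  intro e f h
  simp only at h
  ext x
  rw [← Sym2.mem_toFinset, ← Sym2.mem_toFinset, h]

theorem cyc {V : Type} [Fintype V] {T : Finset (Finset V)} {x : V}
    (w : (sk T).Walk x x) (hw : w.IsCycle) :
    Even2 (wed w) ∧ (wed w).card = w.length ∧ wed w ⊆ ed T := by
  have hnd : w.edges.Nodup := hw.edges_nodup
  have hnd2 : (w.edges.map (fun e => e.toFinset)).Nodup := hnd.map toFinset_inj
  refine ⟨?_, ?_, ?_⟩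
  · intro v
    have h1 : ((wed w).filter (fun e => v ∈ e)).card =
        w.edges.countP (fun e => v ∈ e) := by
      have h2 : (wed w).filter (fun e => v ∈ e) =
          ((w.edges.map (fun e => e.toFinset)).filter (fun e => decide (v ∈ e))).toFinset := by
        ext e
        simp only [wed, mem_filter, List.mem_toFinset, List.mem_filter, decide_eq_true_eq]
      rw [h2, List.toFinset_card_of_nodup (hnd2.filter _),
        ← List.countP_eq_length_filter, List.countP_map]
      congr 1
      funext e
      simp [Sym2.mem_toFinset]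
    rw [h1, hw.isTrail.even_countP_edges_iff v]
    intro h
    exact absurd rfl h
  · unfold wed
    rw [List.toFinset_card_of_nodup hnd2, List.length_map, SimpleGraph.Walk.length_edges]
  · intro e he
    unfold wed at he
    rw [List.mem_toFinset, List.mem_map] at he
    obtain ⟨f, hf, rfl⟩ := he
    have hadj := w.edges_subset_edgeSet hf
    induction f using Sym2.ind with
    | _ a b =>
      rw [SimpleGraph.mem_edgeSet] at hadj
      obtain ⟨hab, t, ht, ha, hb⟩ := hadj
      rw [Sym2.toFinset_mk_eq]
      exact mem_ed_of hab ht ha hb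

theorem ev : StmtEV := by
  intro V _ T hT
  exact ⟨bd_symm T, fun z z' h h' => even_symm h h', fun D hD => even_bd hT hD,
    fun x w hw => cyc w hw, bd_univ hT, fun D hD h0 => all_or hT hD h0⟩

end Pool.Agent.Helper70.KC
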