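import Pool.Agent.Helper80.KC.Goals

/-!
Project KC (MP_eaa1a7_co), packet FOLD: re-gluing along `X`.
-/

set_option autoImplicit false

open Module

namespace Pool.Agent.Helper70.KC

open Pool.Agent.Helper80.KC

theorem inner_of_norm {V W : Type} [NormedAddCommGroup V] [InnerProductSpace ℝ V]
    [NormedAddCommGroup W] [InnerProductSpace ℝ W] (T : V →ₗ[ℝ] W) (Y : Submodule ℝ V)
    (h : ∀ y ∈ Y, ‖T y‖ = ‖y‖) (y z : V) (hy : y ∈ Y) (hz : z ∈ Y) :
    inner ℝ (T y) (T z) = inner ℝ y z := by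
  rw [real_inner_eq_norm_add_mul_self_sub_norm_mul_self_sub_norm_mul_self_div_two,
    real_inner_eq_norm_add_mul_self_sub_norm_mul_self_sub_norm_mul_self_div_two,
    ← map_add, h y hy, h z hz, h (y + z) (Y.add_mem hy hz)]

theorem goalFOLD (hI : G_ISO) : G_FOLD := by
  intro k V _ _ _ N p f X Y hc hXY hNY hY6 hf
  obtain ⟨T, hT1, hT2⟩ := hI V X
  have hn : ∀ i, ∀ y ∈ Y i, ‖T (Y i) y‖ = ‖y‖ := fun i => hT1 (Y i) (hXY i) (hY6 i)
  have hfe : ∀ i j, i ≠ j → T (Y i) (f i j) = T (Y j) (f i j) := by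
    intro i j hij
    rcases hf i j hij with h | h
    · rw [h]
    · exact hT2 (Y i) (Y j) (hXY i) (hXY j) (hY6 i) (hY6 j) _ h
  refine ⟨fun i => (N i).map (T (Y i)), fun i => T (Y i) (p i), fun i j => T (Y i) (f i j), ?_⟩
  refine ⟨?_, ?_, ?_, ?_, ?_, ?_, ?_⟩
  · intro i
    have hinj : Function.Injective ((T (Y i)).domRestrict (N i)) := by
      rw [← LinearMap.ker_eq_bot, LinearMap.ker_eq_bot']
      intro x hx
      have h1 : T (Y i) (x : V) = 0 := hx
      have h2 := hn i x (hNY i x.2)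
      rw [h1, norm_zero] at h2
      exact Subtype.ext (norm_eq_zero.1 h2.symm)
    have h3 := LinearMap.finrank_range_of_inj hinj
    rw [LinearMap.range_domRestrict] at h3
    rw [h3]
    exact hc.dim i
  · intro i
    exact Submodule.mem_map_of_mem (hc.pm i)
  · intro i
    rw [hn i _ (hNY i (hc.pm i)), hc.pn i]
  · intro i j hij
    exact Submodule.mem_map_of_mem (hc.fl i j hij)
  · intro i j hij
    change T (Y i) (f i j) ∈ (N j).map (T (Y j))
    rw [hfe i j hij]
    exact Submodule.mem_map_of_mem (hc.fr i j hij)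
  · intro i j hij
    rw [hn i _ (hNY i (hc.fl i j hij)), hc.fn i j hij]
  · intro i j hij
    change 1 ≤ |inner ℝ (T (Y i) (p i) - T (Y j) (p j)) (T (Y i) (f i j))|
    rw [inner_sub_left]
    have h1 : inner ℝ (T (Y i) (p i)) (T (Y i) (f i j)) = inner ℝ (p i) (f i j) :=
      inner_of_norm _ (Y i) (hn i) _ _ (hNY i (hc.pm i)) (hNY i (hc.fl i j hij))
    have h2 : inner ℝ (T (Y j) (p j)) (T (Y i) (f i j)) = inner ℝ (p j) (f i j) := by
      rw [hfe i j hij]
      exact inner_of_norm _ (Y j) (hn j) _ _ (hNY j (hc.pm j)) (hNY j (hc.fr i j hij))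
    rw [h1, h2, ← inner_sub_left]
    exact hc.sep i j hij

end Pool.Agent.Helper70.KC
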